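import Pool.Agent.Q71.DN.SeqStar

set_option autoImplicit false

/-!
# The discrepancy of every digital sequence

`F` is any finite field, `q` its number of elements, `s ≥ 2`; `c > 0` depends only on `s`. Every
digital `(t,s)`-sequence over `F` has `N D*_N ≥ c (log N / (q (t+1)² log q))^s` for infinitely many
`N`, and every digital sequence, without any condition on its generating matrices, has
`N D*_N ≥ c (m/(q (1 + log m)²))^s` for some `N ≤ q^m`, for every `m`. Here `D*_N ≤ D_N` is the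
discrepancy with respect to the boxes `[0,x)`.
-/

namespace Pool.Agent.Results.MP_f4022e_nt.DigitalSequences

open Finset MeasureTheory Filter

open Classical in
/-- `A_N(B)`: the number of indices `0 ≤ n < N` with `z_n ∈ B`. -/
noncomputable def countIn {d : ℕ} (z : ℕ → Fin d → ℝ) (N : ℕ) (B : Set (Fin d → ℝ)) : ℕ :=
  ((Finset.range N).filter (fun n => z n ∈ B)).card

/-- The boxes `B = ∏ [0, x_i)` with `x ∈ [0,1]^d`, contained in `[0,1)^d`. -/
def IsAnchoredBox {d : ℕ} (B : Set (Fin d → ℝ)) : Prop :=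
  ∃ x : Fin d → ℝ, (∀ i, 0 ≤ x i ∧ x i ≤ 1) ∧ B = Set.univ.pi fun i => Set.Ico 0 (x i)

/-- `D*_N`: the supremum of `|A_N(B) / N - λ(B)|` over the boxes `[0,x)`, at most the discrepancy
`D_N` over all axis-parallel boxes in `[0,1)^d`. -/
noncomputable def starDiscrepancy {d : ℕ} (z : ℕ → Fin d → ℝ) (N : ℕ) : ENNReal :=
  ⨆ (B : Set (Fin d → ℝ)) (_ : IsAnchoredBox B),
    ENNReal.ofReal |(countIn z N B : ℝ) / N - (volume B).toReal|

/-- The `i`-th digit in base `q` (`i = 0` is the first digit after the point) of `y ∈ [0,1)`. -/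
noncomputable def digitAt (q i : ℕ) (y : ℝ) : ℕ := ⌊(q : ℝ) ^ (i + 1) * y⌋₊ % q

/-- `z` is a digital sequence in `[0,1)^s` over `F`, with generating matrices `C j : ℕ × ℕ → F`:
if `n = Σ_l a_l q^l` in base `q`, then the `i`-th digit of the coordinate `j` of `z n` is
`ψ j i (Σ_l C j i l * η l a_l)`, where `η l : {0, …, q-1} → F` is injective with `η l 0 = 0` for
`l ≥ l₀` (so the sum is finite: the terms with `l ≥ n + l₀` vanish, as then `a_l = 0`). -/
def IsDigitalSeq {F : Type} [Field F] [Fintype F] {s : ℕ} (C : Fin s → ℕ → ℕ → F) (l₀ : ℕ)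
    (η : ℕ → ℕ → F) (ψ : Fin s → ℕ → (F ≃ Fin (Fintype.card F))) (z : ℕ → Fin s → ℝ) : Prop :=
  (∀ l, Set.InjOn (η l) (Set.Iio (Fintype.card F))) ∧ (∀ l, l₀ ≤ l → η l 0 = 0) ∧
  ∀ n j, 0 ≤ z n j ∧ z n j < 1 ∧ ∀ i, digitAt (Fintype.card F) i (z n j) =
    (ψ j i (∑ l ∈ range (n + l₀), C j i l * η l (n / Fintype.card F ^ l % Fintype.card F)) : ℕ)

open Classical in
/-- `(t,s)`-sequences in base `b`: for all `k` and `m` the points `z n` with
`k b^m ≤ n < (k+1) b^m` form a `(t,m,s)`-net in base `b`: every elementary interval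
`∏ [v_i b^(-κ_i), (v_i+1) b^(-κ_i))` of volume `b^(t-m)` contains exactly `b^t` of them. -/
def IsTSeq (b t : ℕ) {s : ℕ} (z : ℕ → Fin s → ℝ) : Prop :=
  ∀ k m : ℕ, ∀ κ v : Fin s → ℕ, ∑ i, κ i + t = m → (∀ i, v i < b ^ κ i) →
    ((Ico (k * b ^ m) ((k + 1) * b ^ m)).filter (fun n => ∀ i, (v i : ℝ) / (b:ℝ) ^ κ i ≤ z n i ∧
      z n i < ((v i : ℝ) + 1) / (b:ℝ) ^ κ i)).card = b ^ t

/-- **Theorem.** Lower bounds for the star discrepancy of all digital `(t,s)`-sequences, and of all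
digital sequences, in dimension `s ≥ 2`. -/
theorem result (s : ℕ) (hs : 2 ≤ s) :
    ∃ c : ℝ, 0 < c ∧ ∀ (F : Type) [Field F] [Fintype F] (C : Fin s → ℕ → ℕ → F) (l₀ : ℕ)
      (η : ℕ → ℕ → F) (ψ : Fin s → ℕ → (F ≃ Fin (Fintype.card F)))
      (z : ℕ → Fin s → ℝ), IsDigitalSeq C l₀ η ψ z →
      (∀ t : ℕ, IsTSeq (Fintype.card F) t z →
        ∃ᶠ N : ℕ in atTop,
          ENNReal.ofReal (c * (Real.log N / ((Fintype.card F : ℝ) * ((t : ℝ) + 1) ^ 2 *
            Real.log (Fintype.card F))) ^ s / N) ≤ starDiscrepancy z N) ∧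
      ∀ m : ℕ, ∃ N : ℕ, 1 ≤ N ∧ N ≤ Fintype.card F ^ m ∧
        ENNReal.ofReal (c * ((m : ℝ) / ((Fintype.card F : ℝ) * (1 + Real.log m) ^ 2)) ^ s / N)
          ≤ starDiscrepancy z N :=
  Pool.Agent.Q71.DN.seqs_starD s hs

end Pool.Agent.Results.MP_f4022e_nt.DigitalSequences
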