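import Pool.Agent.Q71.OS.All
import Pool.Agent.Q71.DN.SeqStar

set_option autoImplicit false

/-!
# The discrepancy of Owen scrambled `(t,s)`-sequences

For every `(t,s)`-sequence in base `b` (digital or not) and every `m`, the proportion of the nested
scramblings of the first `m` digits of its first `b^m` points for which
`N D*_N < c (m/(t+1))^s` for all `N ≤ b^m` is at most `exp(-b^(c' m))`; `c, c' > 0` depend only on
`s ≥ 1`. Here `D*_N ≤ D_N` is the discrepancy with respect to the boxes `[0,x)`.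
-/

namespace Pool.Agent.Results.MP_f4022e_nt.ScrambledSequences

open Finset MeasureTheory

open Classical in
/-- `A_N(B)`: the number of indices `0 ≤ n < N` with `z_n ∈ B`. -/
noncomputable def countIn {d : ℕ} (z : ℕ → Fin d → ℝ) (N : ℕ) (B : Set (Fin d → ℝ)) : ℕ :=
  ((Finset.range N).filter (fun n => z n ∈ B)).card

/-- The boxes `B = ∏ [0, x_i)` with `x ∈ [0,1]^d`, contained in `[0,1)^d`. -/
def IsAnchoredBox {d : ℕ} (B : Set (Fin d → ℝ)) : Prop :=
  ∃ x : Fin d → ℝ, (∀ i, 0 ≤ x i ∧ x i ≤ 1) ∧ B = Set.univ.pi fun i => Set.Ico 0 (x i)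

/-- `D*_N`: the supremum of `|A_N(B) / N - λ(B)|` over the boxes `[0,x)`, at most the discrepancy
`D_N` over all axis-parallel boxes in `[0,1)^d`. -/
noncomputable def starDiscrepancy {d : ℕ} (z : ℕ → Fin d → ℝ) (N : ℕ) : ENNReal :=
  ⨆ (B : Set (Fin d → ℝ)) (_ : IsAnchoredBox B),
    ENNReal.ofReal |(countIn z N B : ℝ) / N - (volume B).toReal|

/-- The `i`-th digit in base `b` (`i = 0` is the first digit after the point) of `y ∈ [0,1)`. -/
noncomputable def dg (b : ℕ) [NeZero b] (i : ℕ) (y : ℝ) : Fin b :=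
  Fin.ofNat b ⌊(b : ℝ) ^ (i + 1) * y⌋₊

open Classical in
/-- `(t,s)`-sequences in base `b`: for all `k` and `m` the points `z n` with
`k b^m ≤ n < (k+1) b^m` form a `(t,m,s)`-net in base `b`: every elementary interval
`∏ [v_i b^(-κ_i), (v_i+1) b^(-κ_i))` of volume `b^(t-m)` contains exactly `b^t` of them. -/
def IsTSeq (b t : ℕ) {s : ℕ} (z : ℕ → Fin s → ℝ) : Prop :=
  ∀ k m : ℕ, ∀ κ v : Fin s → ℕ, ∑ i, κ i + t = m → (∀ i, v i < b ^ κ i) →
    ((Ico (k * b ^ m) ((k + 1) * b ^ m)).filter (fun n => ∀ i, (v i : ℝ) / (b:ℝ) ^ κ i ≤ z n i ∧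
      z n i < ((v i : ℝ) + 1) / (b:ℝ) ^ κ i)).card = b ^ t

/-- Nested scramblings of the first `m` digits in `s` coordinates: a permutation of the digits
`{0, …, b-1}` for each coordinate, each place `i < m` and each string of `i` preceding digits. -/
abbrev Scr (b m s : ℕ) : Type :=
  Fin s → (i : Fin m) → (Fin (i : ℕ) → Fin b) → Equiv.Perm (Fin b)

/-- `ζ` is obtained from the first `b^m` points of `z` by the scrambling `π`: the `i`-th digit
(`i < m`) of each coordinate is permuted by the permutation of `π` that belongs to the preceding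
digits. The digits of `ζ` after the first `m` are arbitrary. -/
def IsScrSeq {b m s : ℕ} [NeZero b] (π : Scr b m s) (z ζ : ℕ → Fin s → ℝ) : Prop :=
  ∀ n < b ^ m, ∀ j, 0 ≤ ζ n j ∧ ζ n j < 1 ∧ ∀ i : Fin m,
    dg b i (ζ n j) = π j i (fun i' => dg b i' (z n j)) (dg b i (z n j))

/-- **Theorem.** The proportion of the scramblings of a `(t,s)`-sequence with small star
discrepancies `D*_N` for all `N ≤ b^m` is at most `exp(-b^(c' m))`. -/
theorem result (s : ℕ) (hs : 1 ≤ s) :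
    ∃ c c' : ℝ, 0 < c ∧ 0 < c' ∧ ∀ (b : ℕ) [NeZero b] (t m : ℕ)
      (z : ℕ → Fin s → ℝ), 2 ≤ b → (∀ n j, 0 ≤ z n j ∧ z n j < 1) → IsTSeq b t z →
      (Nat.card {π : Scr b m s // ∃ ζ : ℕ → Fin s → ℝ, IsScrSeq π z ζ ∧
        ∀ N : ℕ, 1 ≤ N → N ≤ b ^ m → starDiscrepancy ζ N <
          ENNReal.ofReal (c * ((m : ℝ) / ((t : ℝ) + 1)) ^ s / N)} : ℝ) ≤
        Real.exp (-(b : ℝ) ^ (c' * m)) * (Nat.card (Scr b m s) : ℝ) := by
  obtain ⟨D, rfl⟩ := Nat.exists_eq_add_of_le' hs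
  obtain ⟨c, c', hc, hc', h⟩ := Pool.Agent.Q71.OS.seqs Pool.Agent.Q71.DN.star_thm
    Pool.Agent.Q71.OS.scr_thm D
  refine ⟨c, c', hc, hc', ?_⟩
  intro b _ t m z hb hz hseq
  refine le_trans (Nat.cast_le.mpr ?_) (h b t m z hb hz hseq)
  refine Nat.card_le_card_of_injective (fun y => ⟨y.1, ?_⟩)
    (fun y y' hyy => Subtype.ext (by simpa using hyy))
  obtain ⟨ζ, hζ, hlt⟩ := y.2
  refine ⟨ζ, hζ, fun N hN1 hN2 => lt_of_le_of_lt ?_ (hlt N hN1 hN2)⟩
  exact Pool.Agent.Q71.DN.starDisc_le_starD ζ N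
    (fun n hn j => (hζ n (lt_of_lt_of_le hn hN2) j).1)

end Pool.Agent.Results.MP_f4022e_nt.ScrambledSequences
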